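import Mathlib
import Pool.Agent.W674.LVF.Stm

/-!
# LVF-ibp: the Jacobian determinant is a null Lagrangian
-/

set_option autoImplicit false

open MeasureTheory Set Filter Topology
open scoped ENNReal NNReal ContDiff
open Pool.Agent.W674.LVR Pool.Agent.W674.LVF

namespace Pool.Agent.W571.LVF.Ibp

open Polynomial in
/-- the coefficient of degree `k` of a polynomial of degree at most `k`, by interpolation -/
lemma coeff_interp (k : ℕ) (v : Fin (k + 1) → ℝ) (hv : Function.Injective v) :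
    ∃ lam : Fin (k + 1) → ℝ, ∀ f : ℝ[X], f.natDegree ≤ k →
      f.coeff k = ∑ i, lam i * f.eval (v i) := by
  refine ⟨fun i => (Lagrange.basis Finset.univ v i).coeff k, fun f hf => ?_⟩
  have hdeg : f.degree < (Finset.univ : Finset (Fin (k + 1))).card := by
    rw [Finset.card_univ, Fintype.card_fin]
    refine (degree_le_of_natDegree_le hf).trans_lt ?_
    exact_mod_cast Nat.lt_succ_self k
  have h1 := Lagrange.eq_interpolate (v := v) hv.injOn hdeg
  have h2 : f.coeff k = (Lagrange.interpolate Finset.univ v fun i => f.eval (v i)).coeff k := by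
    rw [← h1]
  rw [h2, Lagrange.interpolate_apply, finsetSum_coeff]
  refine Finset.sum_congr rfl fun i _ => ?_
  rw [coeff_C_mul, mul_comm]

open Polynomial in
/-- the determinant as a combination of the determinants of `1 + t L` -/
lemma det_interp (k : ℕ) (hk : 1 ≤ k) (v : Fin (k + 1) → ℝ) (hv : Function.Injective v) :
    ∃ lam : Fin (k + 1) → ℝ, ∑ i, lam i = 0 ∧ ∀ L : Rn k →L[ℝ] Rn k,
      L.det = ∑ i, lam i * (1 + v i • L : Rn k →L[ℝ] Rn k).det := by
  obtain ⟨lam, hlam⟩ := coeff_interp k v hv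
  refine ⟨lam, ?_, fun L => ?_⟩
  · have h := hlam 1 (by simp)
    simp only [eval_one, mul_one] at h
    rw [← h, coeff_one, if_neg (by omega)]
  · set A : Matrix (Fin k) (Fin k) ℝ := LinearMap.toMatrix' (L : Rn k →ₗ[ℝ] Rn k) with hA
    have h1 := hlam (Matrix.det ((X : ℝ[X]) • A.map C + (1 : Matrix (Fin k) (Fin k) ℝ).map C)) (by
      have := Polynomial.natDegree_det_X_add_C_le A (1 : Matrix (Fin k) (Fin k) ℝ)
      rwa [Fintype.card_fin] at this)
    have h2 := Polynomial.coeff_det_X_add_C_card A (1 : Matrix (Fin k) (Fin k) ℝ)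
    rw [Fintype.card_fin] at h2
    rw [h2] at h1
    have h3 : L.det = A.det := by
      rw [hA, LinearMap.det_toMatrix']
    rw [h3, h1]
    refine Finset.sum_congr rfl fun i _ => ?_
    congr 1
    have h4 : (1 + v i • L : Rn k →L[ℝ] Rn k).det = (1 + v i • A).det := by
      have h5 : LinearMap.toMatrix' ((1 + v i • L : Rn k →L[ℝ] Rn k) : Rn k →ₗ[ℝ] Rn k) =
          1 + v i • A := by
        rw [ContinuousLinearMap.toLinearMap_add, ContinuousLinearMap.toLinearMap_smul, map_add,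
          map_smul, hA, ContinuousLinearMap.toLinearMap_one]
        congr 1
        exact LinearMap.toMatrix'_one
      rw [← h5, LinearMap.det_toMatrix']
    rw [h4]
    have h6 := (Polynomial.evalRingHom (v i)).map_det
      ((X : ℝ[X]) • A.map C + (1 : Matrix (Fin k) (Fin k) ℝ).map C)
    rw [coe_evalRingHom] at h6
    rw [h6]
    congr 1
    ext a b
    simp [Matrix.map_apply, Matrix.add_apply, Matrix.smul_apply, Matrix.one_apply]
    split_ifs <;> simp <;> ring

/-- `det (1 + L) > 0` for a contraction -/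
lemma det_pos {k : ℕ} (L : Rn k →L[ℝ] Rn k) (hL : ‖L‖ < 1) :
    0 < (1 + L : Rn k →L[ℝ] Rn k).det := by
  have hne : ∀ s ∈ Icc (0 : ℝ) 1, (1 + s • L : Rn k →L[ℝ] Rn k).det ≠ 0 := by
    intro s hs h0
    have h1 : ⊥ < LinearMap.ker ((1 + s • L : Rn k →L[ℝ] Rn k) : Rn k →ₗ[ℝ] Rn k) :=
      LinearMap.bot_lt_ker_of_det_eq_zero h0
    obtain ⟨v, hv, hv0⟩ := (Submodule.ne_bot_iff _).1 h1.ne'
    rw [LinearMap.mem_ker] at hv
    have hv' : v + s • L v = 0 := by simpa using hv
    have h2 : v = -(s • L v) := eq_neg_of_add_eq_zero_left hv'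
    have h3 : ‖v‖ ≤ ‖L‖ * ‖v‖ := by
      calc ‖v‖ = ‖s • L v‖ := by conv_lhs => rw [h2, norm_neg]
        _ = |s| * ‖L v‖ := by rw [norm_smul, Real.norm_eq_abs]
        _ ≤ 1 * (‖L‖ * ‖v‖) := by
            refine mul_le_mul ?_ (L.le_opNorm v) (norm_nonneg _) zero_le_one
            rw [abs_of_nonneg hs.1]
            exact hs.2
        _ = ‖L‖ * ‖v‖ := one_mul _
    have h4 : 0 < ‖v‖ := norm_pos_iff.2 hv0
    nlinarith
  by_contra hneg
  push Not at hneg
  have hcont : ContinuousOn (fun s : ℝ => (1 + s • L : Rn k →L[ℝ] Rn k).det) (Icc 0 1) := by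
    refine Continuous.continuousOn ?_
    exact ContinuousLinearMap.continuous_det.comp (by fun_prop)
  have h1 := intermediate_value_Icc' (zero_le_one (α := ℝ)) hcont
  have h2 : (0 : ℝ) ∈ Icc ((1 + (1 : ℝ) • L : Rn k →L[ℝ] Rn k).det)
      ((1 + (0 : ℝ) • L : Rn k →L[ℝ] Rn k).det) := by
    constructor
    · rw [one_smul]
      exact hneg
    · rw [zero_smul, add_zero]
      have : (1 : Rn k →L[ℝ] Rn k).det = 1 := LinearMap.det_id
      rw [this]
      exact zero_le_one
  obtain ⟨s, hs, h0⟩ := h1 h2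
  exact hne s hs h0

/-- for a small Lipschitz perturbation with support in a ball, the ball is mapped onto itself -/
lemma image_ball {k : ℕ} {Φ : Rn k → Rn k} {c : ℝ≥0} (hc : c < 1) (hΦ : LipschitzWith c Φ)
    {B : Set (Rn k)} (hB : ∀ x, x ∉ B → Φ x = 0) :
    Function.Injective (fun x => x + Φ x) ∧ (fun x => x + Φ x) '' B = B := by
  have hinj : Function.Injective (fun x => x + Φ x) := by
    intro x y hxy
    simp only at hxy
    have h1 : x - y = -(Φ x - Φ y) := by
      have : x - y + (Φ x - Φ y) = 0 := by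
        have h2 : x + Φ x - (y + Φ y) = 0 := sub_eq_zero.2 hxy
        rw [← h2]
        abel
      exact eq_neg_of_add_eq_zero_left this
    have h2 : ‖x - y‖ ≤ c * ‖x - y‖ := by
      conv_lhs => rw [h1, norm_neg]
      exact hΦ.norm_sub_le x y
    have h3 : (c : ℝ) < 1 := by exact_mod_cast hc
    have h4 : ‖x - y‖ ≤ 0 := by
      by_contra h5
      push Not at h5
      nlinarith
    exact sub_eq_zero.1 (norm_le_zero_iff.1 h4)
  refine ⟨hinj, ?_⟩
  have hsurj : ∀ y, ∃ x, x + Φ x = y := by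
    intro y
    have hcon : ContractingWith c (fun x => y - Φ x) := by
      refine ⟨hc, LipschitzWith.of_dist_le_mul fun a b => ?_⟩
      rw [dist_sub_left]
      exact hΦ.dist_le_mul a b
    refine ⟨hcon.fixedPoint, ?_⟩
    have h1 := hcon.fixedPoint_isFixedPt
    have h2 : y - Φ hcon.fixedPoint = hcon.fixedPoint := h1
    rw [eq_comm, ← sub_eq_iff_eq_add]
    exact h2
  apply Subset.antisymm
  · rintro _ ⟨x, hx, rfl⟩
    by_contra h1
    have h2 := hB _ h1
    have h3 : (fun x => x + Φ x) (x + Φ x) = (fun x => x + Φ x) x := by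
      simp only
      rw [h2, add_zero]
    have h4 := hinj h3
    simp only at h1
    rw [h4] at h1
    exact h1 hx
  · intro y hy
    obtain ⟨x, hx⟩ := hsurj y
    refine ⟨x, ?_, hx⟩
    by_contra h1
    rw [hB x h1, add_zero] at hx
    rw [hx] at h1
    exact h1 hy

/-- the integral of the determinant of `1 + t DΦ` -/
lemma integral_det (hA : S_area) {k : ℕ} {Φ : Rn k → Rn k} {c : ℝ≥0} (hc : c < 1)
    (hΦ : LipschitzWith c Φ) {B : Set (Rn k)} (hBm : MeasurableSet B)
    (hB : ∀ x, x ∉ B → Φ x = 0) (hfin : volume B ≠ ⊤) :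
    IntegrableOn (fun u => (1 + fderiv ℝ Φ u : Rn k →L[ℝ] Rn k).det) B ∧
    ∫ u in B, (1 + fderiv ℝ Φ u : Rn k →L[ℝ] Rn k).det = (volume B).toReal := by
  obtain ⟨hinj, himg⟩ := image_ball hc hΦ hB
  have hLip : LipschitzWith (1 + c) (fun x => x + Φ x) := LipschitzWith.id.add hΦ
  obtain ⟨_, h1⟩ := hA k (fun x => x + Φ x) B (fun _ => 1) ⟨1 + c, hLip⟩ hBm hinj.injOn
    measurable_const
  rw [himg] at h1
  simp only [mul_one, lintegral_const, MeasurableSet.univ, Measure.restrict_apply, univ_inter,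
    one_mul] at h1
  have hpos : ∀ u, 0 < (1 + fderiv ℝ Φ u : Rn k →L[ℝ] Rn k).det := by
    intro u
    refine det_pos _ ((norm_fderiv_le_of_lipschitz ℝ hΦ).trans_lt ?_)
    exact_mod_cast hc
  have hae : ∀ᵐ u ∂(volume : Measure (Rn k)),
      ENNReal.ofReal |(fderiv ℝ (fun x => x + Φ x) u).det| =
        ENNReal.ofReal ((1 + fderiv ℝ Φ u : Rn k →L[ℝ] Rn k).det) := by
    filter_upwards [hΦ.ae_differentiableAt] with u hu
    have h2 : fderiv ℝ (fun x => x + Φ x) u = 1 + fderiv ℝ Φ u := by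
      rw [fderiv_fun_add differentiableAt_fun_id hu, fderiv_fun_id]
      rfl
    rw [h2, abs_of_pos (hpos u)]
  have h2 : volume B = ∫⁻ u in B, ENNReal.ofReal ((1 + fderiv ℝ Φ u : Rn k →L[ℝ] Rn k).det) := by
    rw [h1]
    exact lintegral_congr_ae (ae_restrict_of_ae hae)
  have hmeas : Measurable fun u => (1 + fderiv ℝ Φ u : Rn k →L[ℝ] Rn k).det :=
    ContinuousLinearMap.continuous_det.measurable.comp
      ((measurable_fderiv ℝ Φ).const_add 1)
  have hint : IntegrableOn (fun u => (1 + fderiv ℝ Φ u : Rn k →L[ℝ] Rn k).det) B := by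
    refine ⟨hmeas.aestronglyMeasurable, ?_⟩
    rw [hasFiniteIntegral_iff_ofReal (Eventually.of_forall fun u => (hpos u).le), ← h2]
    exact hfin.lt_top
  refine ⟨hint, ?_⟩
  rw [integral_eq_lintegral_of_nonneg_ae (Eventually.of_forall fun u => (hpos u).le)
    hmeas.aestronglyMeasurable, ← h2]

lemma lip_smul {k : ℕ} {Φ : Rn k → Rn k} {K : ℝ≥0} (hΦ : LipschitzWith K Φ) (s : ℝ≥0) :
    LipschitzWith (s * K) (fun x => (s : ℝ) • Φ x) := by
  refine LipschitzWith.of_dist_le_mul fun x y => ?_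
  rw [dist_smul₀, NNReal.coe_mul]
  have h1 := hΦ.dist_le_mul x y
  have h2 : ‖(s : ℝ)‖ = s := by rw [Real.norm_eq_abs, NNReal.abs_eq]
  rw [h2, mul_assoc]
  exact mul_le_mul_of_nonneg_left h1 s.2

lemma fderiv_smul' {k : ℕ} (Φ : Rn k → Rn k) (s : ℝ) (u : Rn k) :
    fderiv ℝ (fun x => s • Φ x) u = s • fderiv ℝ Φ u := by
  by_cases h : DifferentiableAt ℝ Φ u
  · exact fderiv_fun_const_smul h s
  · by_cases hs : s = 0
    · subst hs
      simp
    · rw [fderiv_zero_of_not_differentiableAt h, smul_zero]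
      refine fderiv_zero_of_not_differentiableAt fun h1 => h ?_
      have h2 := h1.const_smul s⁻¹
      have h3 : (s⁻¹ • fun x => s • Φ x) = Φ := by
        funext x
        simp [smul_smul, inv_mul_cancel₀ hs]
      rwa [h3] at h2

/-- the integral of the Jacobian determinant of a compactly supported Lipschitz map -/
theorem integral_det_zero (hA : S_area) {k : ℕ} (hk : 1 ≤ k) {Φ : Rn k → Rn k} {K : ℝ≥0}
    (hΦ : LipschitzWith K Φ) (hc : HasCompactSupport Φ) : ∫ u, (fderiv ℝ Φ u).det = 0 := by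
  set B : Set (Rn k) := tsupport Φ with hBdef
  have hBc : IsCompact B := hc
  have hBm : MeasurableSet B := (isClosed_tsupport Φ).measurableSet
  have hB : ∀ x, x ∉ B → Φ x = 0 := fun x hx => image_eq_zero_of_notMem_tsupport hx
  have h0 : ∫ u, (fderiv ℝ Φ u).det = ∫ u in B, (fderiv ℝ Φ u).det := by
    symm
    refine setIntegral_eq_integral_of_forall_compl_eq_zero fun x hx => ?_
    have h1 : fderiv ℝ Φ x = 0 := by
      by_contra h2
      exact hx (support_fderiv_subset ℝ h2)
    rw [h1]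
    have : (0 : Rn k →L[ℝ] Rn k).det = LinearMap.det (0 : Rn k →ₗ[ℝ] Rn k) := rfl
    have hne : Nonempty (Fin k) := ⟨⟨0, by omega⟩⟩
    rw [this, LinearMap.det_zero' (Pi.basisFun ℝ (Fin k))]
  rw [h0]
  -- the nodes
  set t₀ : ℝ≥0 := ((K + 1) * (k + 2 : ℕ))⁻¹ with ht₀
  have ht₀p : 0 < t₀ := by positivity
  let v : Fin (k + 1) → ℝ := fun i => (t₀ * (i : ℕ) : ℝ≥0)
  have hv : Function.Injective v := by
    intro a b hab
    have h1 : (t₀ * ((a : ℕ) : ℝ≥0) : ℝ≥0) = t₀ * ((b : ℕ) : ℝ≥0) := NNReal.eq hab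
    have h2 := mul_left_cancel₀ ht₀p.ne' h1
    exact Fin.ext (by exact_mod_cast h2)
  obtain ⟨lam, hlam0, hlam⟩ := det_interp k hk v hv
  have hstep : ∀ i : Fin (k + 1),
      IntegrableOn (fun u => (1 + v i • fderiv ℝ Φ u : Rn k →L[ℝ] Rn k).det) B ∧
      ∫ u in B, (1 + v i • fderiv ℝ Φ u : Rn k →L[ℝ] Rn k).det = (volume B).toReal := by
    intro i
    set s : ℝ≥0 := t₀ * (i : ℕ) with hs
    have hlip : LipschitzWith (s * K) (fun x => (s : ℝ) • Φ x) := lip_smul hΦ s
    have hlt : s * K < 1 := by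
      have h1 : ((i : ℕ) : ℝ≥0) < (k + 2 : ℕ) := by exact_mod_cast (by omega : (i : ℕ) < k + 2)
      have h2 : s * K = ((K + 1) * (k + 2 : ℕ))⁻¹ * ((i : ℕ) * K) := by
        rw [hs, ht₀]; ring
      rw [h2, inv_mul_lt_iff₀ (by positivity), mul_one]
      calc ((i : ℕ) : ℝ≥0) * K ≤ (k + 2 : ℕ) * K := by gcongr
        _ < (k + 2 : ℕ) * (K + 1) := by
            refine mul_lt_mul_of_pos_left ?_ (by positivity)
            exact lt_add_of_pos_right K one_pos
        _ = (K + 1) * (k + 2 : ℕ) := mul_comm _ _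
    have h1 := integral_det hA hlt hlip hBm (fun x hx => by rw [hB x hx, smul_zero])
      hBc.measure_lt_top.ne
    have h2 : ∀ u, fderiv ℝ (fun x => (s : ℝ) • Φ x) u = (s : ℝ) • fderiv ℝ Φ u :=
      fun u => fderiv_smul' Φ s u
    simp only [h2] at h1
    exact h1
  have h1 : ∀ u, (fderiv ℝ Φ u).det =
      ∑ i, lam i * (1 + v i • fderiv ℝ Φ u : Rn k →L[ℝ] Rn k).det := fun u => hlam _
  simp only [h1]
  rw [integral_finsetSum _ fun i _ => (hstep i).1.const_mul (lam i)]
  simp only [integral_const_mul, fun i => (hstep i).2]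
  rw [← Finset.sum_mul, hlam0, zero_mul]

/-- the cut-off of a Lipschitz function -/
lemma exists_cut {k : ℕ} {f : Rn k → ℝ} (hf : Lip f) (R : ℝ) :
    ∃ f' : Rn k → ℝ, Lip f' ∧ (∀ x, R + 1 ≤ ‖x‖ → f' x = 0) ∧
      ∀ x ∈ Metric.ball (0 : Rn k) R, f' x = f x := by
  obtain ⟨K, hK⟩ := hf
  obtain ⟨C, hC⟩ := (isCompact_closedBall (0 : Rn k) R).exists_bound_of_continuousOn
    hK.continuous.continuousOn
  set M : ℝ≥0 := (max C 0).toNNReal with hM
  have hMC : C ≤ (M : ℝ) := (le_max_left _ _).trans (Real.le_coe_toNNReal _)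
  have h1 : LipschitzWith 1 (fun x : Rn k => R + 1 - ‖x‖) := by
    refine LipschitzWith.of_dist_le_mul fun x y => ?_
    rw [NNReal.coe_one, one_mul, Real.dist_eq]
    have : R + 1 - ‖x‖ - (R + 1 - ‖y‖) = -(‖x‖ - ‖y‖) := by ring
    rw [this, abs_neg, dist_eq_norm]
    exact abs_norm_sub_norm_le x y
  have h2 : LipschitzWith 1 (fun x : Rn k => min 1 (R + 1 - ‖x‖)) := h1.const_min 1
  have h3 : LipschitzWith (M * 1) (fun x : Rn k => (M : ℝ) * min 1 (R + 1 - ‖x‖)) := by
    refine LipschitzWith.of_dist_le_mul fun x y => ?_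
    have h4 := h2.dist_le_mul x y
    rw [Real.dist_eq] at h4 ⊢
    rw [← mul_sub, abs_mul, NNReal.abs_eq, NNReal.coe_mul, mul_assoc]
    exact mul_le_mul_of_nonneg_left h4 M.2
  have h4 : LipschitzWith (M * 1) (fun x : Rn k => max 0 ((M : ℝ) * min 1 (R + 1 - ‖x‖))) :=
    h3.const_max 0
  set ψ : Rn k → ℝ := fun x => max 0 ((M : ℝ) * min 1 (R + 1 - ‖x‖)) with hψ
  refine ⟨fun x => max (-(ψ x)) (min (ψ x) (f x)), ⟨_, h4.neg.max (h4.min hK)⟩, ?_, ?_⟩
  · intro x hx
    have h5 : ψ x = 0 := by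
      rw [hψ]
      simp only
      refine max_eq_left ?_
      have h6 : min 1 (R + 1 - ‖x‖) ≤ 0 := (min_le_right _ _).trans (by linarith)
      exact mul_nonpos_of_nonneg_of_nonpos M.2 h6
    simp only [h5, neg_zero]
    exact max_eq_left (min_le_left _ _)
  · intro x hx
    rw [mem_ball_zero_iff] at hx
    have h5 : ψ x = M := by
      rw [hψ]
      simp only
      rw [min_eq_left (by linarith), mul_one]
      exact max_eq_right M.2
    have h6 : |f x| ≤ M := by
      rw [← Real.norm_eq_abs]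
      exact (hC x (by rw [mem_closedBall_zero_iff]; exact hx.le)).trans hMC
    rw [abs_le] at h6
    simp only [h5]
    rw [min_eq_right h6.2, max_eq_right h6.1]

/-- the determinant of the derivative in terms of the components -/
lemma det_eq {k : ℕ} {Φ : Rn k → Rn k} {u : Rn k} (h : DifferentiableAt ℝ Φ u) :
    (fderiv ℝ Φ u).det = jac (fun i x => Φ x i) u := by
  have h1 : (fderiv ℝ Φ u).det =
      (LinearMap.toMatrix' (fderiv ℝ Φ u : Rn k →ₗ[ℝ] Rn k)).det := by
    rw [LinearMap.det_toMatrix']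
  rw [h1]
  unfold jac
  congr 1
  ext i j
  rw [LinearMap.toMatrix'_apply, Matrix.of_apply]
  have h2 := (hasFDerivAt_pi'.1 h.hasFDerivAt i).fderiv
  rw [h2]
  rfl

/-- **S_ibp**, from the change of variables -/
theorem ibp (hA : S_area) : S_ibp := by
  intro n g π hg hgc hπ
  obtain ⟨R, hR⟩ := hgc.isCompact.isBounded.subset_ball (0 : Rn (n + 1))
  choose π' hπL hπ0 hπe using fun i => exists_cut (hπ i) R
  set Φ : Rn (n + 1) → Rn (n + 1) := fun u => Fin.cons (g u) (fun i => π' i u) with hΦ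
  have hΦ0 : ∀ u, Φ u 0 = g u := fun u => rfl
  have hΦs : ∀ u (i : Fin n), Φ u i.succ = π' i u := fun u i => rfl
  have hcomp : ∀ i : Fin (n + 1), Lip (fun u => Φ u i) := by
    intro i
    refine Fin.cases ?_ (fun i => ?_) i
    · exact hg
    · exact hπL i
  choose Ki hKi using hcomp
  have hLip : LipschitzWith (Finset.univ.sup Ki) Φ := by
    refine LipschitzWith.of_dist_le_mul fun x y => ?_
    rw [dist_pi_le_iff (by positivity)]
    intro i
    refine ((hKi i).dist_le_mul x y).trans ?_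
    refine mul_le_mul_of_nonneg_right ?_ dist_nonneg
    exact_mod_cast Finset.le_sup (f := Ki) (Finset.mem_univ i)
  have hg0 : ∀ x, x ∉ Metric.ball (0 : Rn (n + 1)) R → x ∉ tsupport g := fun x hx h => hx (hR h)
  have hcs : HasCompactSupport Φ := by
    refine HasCompactSupport.intro (isCompact_closedBall (0 : Rn (n + 1)) (R + 1)) fun x hx => ?_
    rw [mem_closedBall_zero_iff, not_le] at hx
    funext i
    refine Fin.cases ?_ (fun i => ?_) i
    · rw [hΦ0]
      refine image_eq_zero_of_notMem_tsupport (hg0 x ?_)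
      rw [mem_ball_zero_iff]
      linarith
    · rw [hΦs]
      exact hπ0 i x hx.le
  have hmain := integral_det_zero hA (by omega : 1 ≤ n + 1) hLip hcs
  rw [← hmain]
  refine integral_congr_ae ?_
  filter_upwards [hLip.ae_differentiableAt] with u hu
  rw [det_eq hu]
  by_cases hub : u ∈ Metric.ball (0 : Rn (n + 1)) R
  · unfold jac
    congr 1
    ext i j
    rw [Matrix.of_apply, Matrix.of_apply]
    refine congrArg (fun L : Rn (n + 1) →L[ℝ] ℝ => L (Pi.single j 1)) ?_
    refine Fin.cases ?_ (fun i => ?_) i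
    · rfl
    · refine Filter.EventuallyEq.fderiv_eq ?_
      filter_upwards [Metric.isOpen_ball.mem_nhds hub] with x hx
      rw [Fin.cons_succ, hΦs]
      exact (hπe i x hx).symm
  · have h1 : fderiv ℝ g u = 0 := by
      by_contra h2
      exact hg0 u hub (support_fderiv_subset ℝ h2)
    unfold jac
    rw [Matrix.det_eq_zero_of_row_eq_zero 0, Matrix.det_eq_zero_of_row_eq_zero 0]
    · intro j
      rw [Matrix.of_apply]
      show fderiv ℝ (fun x => Φ x 0) u (Pi.single j 1) = 0
      simp only [hΦ0]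
      rw [h1]
      rfl
    · intro j
      rw [Matrix.of_apply, Fin.cons_zero, h1]
      rfl

end Pool.Agent.W571.LVF.Ibp
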