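import Mathlib
import Pool.Agent.W674.LVF.Stm

/-!
# LVF-mol: bounded weak derivatives on a convex body imply Lipschitz
-/

set_option autoImplicit false

open MeasureTheory Set Filter Topology
open scoped ENNReal NNReal ContDiff Convolution
open Pool.Agent.W674.LVR Pool.Agent.W674.LVF

namespace Pool.Agent.W571.LVF.Mol

/-- the bilinear map of the convolution -/
noncomputable def LL : ℝ →L[ℝ] ℝ →L[ℝ] ℝ := (ContinuousLinearMap.lsmul ℝ ℝ).flip

lemma LL_apply (a b : ℝ) : LL a b = a * b := by
  simp [LL, mul_comm]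

variable {m : ℕ}

lemma conv_apply (a b : Rn m → ℝ) (x : Rn m) :
    (a ⋆[LL, volume] b) x = ∫ t, a t * b (x - t) := by
  rw [convolution_def]
  simp only [LL_apply]

lemma conv_has {a b : Rn m → ℝ} (ha : LocallyIntegrable a) (hb : ContDiff ℝ 1 b)
    (hcb : HasCompactSupport b) (x : Rn m) :
    ∃ L : Rn m →L[ℝ] ℝ, HasFDerivAt (a ⋆[LL, volume] b) L x ∧
      ∀ v, L v = ∫ t, a t * fderiv ℝ b (x - t) v := by
  refine ⟨_, hcb.hasFDerivAt_convolution_right LL ha hb x, fun v => ?_⟩
  rw [convolution_precompR_apply LL ha (hcb.fderiv ℝ) (hb.continuous_fderiv (by norm_num)) x v]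
  exact conv_apply a (fun t => fderiv ℝ b t v) x

lemma fderiv_refl (b : Rn m → ℝ) (hb : Differentiable ℝ b) (x t v : Rn m) :
    fderiv ℝ (fun t => b (x - t)) t v = - fderiv ℝ b (x - t) v := by
  have h1 : HasFDerivAt (fun t : Rn m => x - t) (-ContinuousLinearMap.id ℝ (Rn m)) t :=
    (hasFDerivAt_id t).const_sub x
  have h2 := (hb (x - t)).hasFDerivAt.comp t h1
  have h3 : fderiv ℝ (fun t => b (x - t)) t =
      (fderiv ℝ b (x - t)).comp (-ContinuousLinearMap.id ℝ (Rn m)) := h2.fderiv
  rw [h3]
  simp only [ContinuousLinearMap.comp_apply, neg_apply, ContinuousLinearMap.id_apply, map_neg]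

theorem main : S_mol := by
  intro m K p H hK hconv hne hHm hHb hweak
  obtain ⟨C, hC⟩ := hHb
  set U : Set (Rn m) := interior K with hU
  have hUo : IsOpen U := isOpen_interior
  have hUc : Convex ℝ U := hconv.interior
  -- the bumps
  let φ : ℕ → ContDiffBump (0 : Rn m) := fun n =>
    ⟨1 / (3 * ((n : ℝ) + 1)), 1 / (2 * ((n : ℝ) + 1)), by positivity, by
      apply one_div_lt_one_div_of_lt <;> nlinarith [(Nat.cast_nonneg n : (0:ℝ) ≤ n)]⟩
  have hout : ∀ n, (φ n).rOut = 1 / (2 * ((n : ℝ) + 1)) := fun n => rfl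
  have hin : ∀ n, (φ n).rIn = 1 / (3 * ((n : ℝ) + 1)) := fun n => rfl
  have hloc : LocallyIntegrable H volume := by
    have h1 : LocallyIntegrable (fun _ : Rn m => |C|) volume := locallyIntegrable_const _
    refine h1.mono hHm.aestronglyMeasurable (Eventually.of_forall fun y => ?_)
    rw [Real.norm_eq_abs, Real.norm_eq_abs, abs_abs]
    exact (hC y).trans (le_abs_self _)
  set ρ : ℕ → Rn m → ℝ := fun n => (φ n).normed volume with hρ
  have hρs : ∀ n, ContDiff ℝ ∞ (ρ n) := fun n => (φ n).contDiff_normed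
  have hρ1' : ∀ n, ContDiff ℝ 1 (ρ n) := fun n => (φ n).contDiff_normed
  have hρd : ∀ n, Differentiable ℝ (ρ n) := fun n => (hρ1' n).differentiable (by norm_num)
  have hρc : ∀ n, HasCompactSupport (ρ n) := fun n => (φ n).hasCompactSupport_normed
  have hρ0 : ∀ n x, 0 ≤ ρ n x := fun n x => (φ n).nonneg_normed x
  have hρ1 : ∀ n, ∫ x, ρ n x = 1 := fun n => (φ n).integral_normed
  have hρt : ∀ n, tsupport (ρ n) = Metric.closedBall 0 (φ n).rOut := fun n =>
    (φ n).tsupport_normed_eq
  have hr0 : Tendsto (fun n => (φ n).rOut) atTop (𝓝 0) := by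
    have h2 : Tendsto (fun n : ℕ => 1 / 2 * (1 / ((n : ℝ) + 1))) atTop (𝓝 (1 / 2 * 0)) :=
      tendsto_one_div_add_atTop_nhds_zero_nat.const_mul _
    rw [mul_zero] at h2
    refine h2.congr fun n => ?_
    rw [hout]
    field_simp
  -- derivative bound
  have hder : ∀ n x, Metric.closedBall x (φ n).rOut ⊆ U → ∃ L : Rn m →L[ℝ] ℝ,
      HasFDerivAt (H ⋆[LL, volume] ρ n) L x ∧ ∀ v, |L v| ≤ p v := by
    intro n x hx
    obtain ⟨L, hL, hLv⟩ := conv_has hloc (hρ1' n) (hρc n) x
    refine ⟨L, hL, fun v => ?_⟩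
    set g : Rn m → ℝ := fun t => ρ n (x - t) with hg
    have hgs : ContDiff ℝ ∞ g := (hρs n).comp (contDiff_const.sub contDiff_id)
    have hgsup : tsupport g ⊆ Metric.closedBall x (φ n).rOut := by
      refine closure_minimal (fun t ht => ?_) Metric.isClosed_closedBall
      have h1 : x - t ∈ tsupport (ρ n) := subset_tsupport _ ht
      rw [hρt, Metric.mem_closedBall, dist_zero_right] at h1
      rw [Metric.mem_closedBall, dist_comm, dist_eq_norm]
      exact h1
    have hgc : HasCompactSupport g :=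
      (isCompact_closedBall x (φ n).rOut).of_isClosed_subset (isClosed_tsupport _) hgsup
    have h1 := hweak v g hgs hgc (hgsup.trans hx) (fun y => hρ0 n _)
    have h2 : ∫ y, H y * fderiv ℝ g y v = -L v := by
      rw [hLv, ← integral_neg]
      refine integral_congr_ae (Eventually.of_forall fun t => ?_)
      simp only [hg]
      rw [fderiv_refl (ρ n) (hρd n)]
      ring
    have h3 : ∫ y, g y = 1 := by
      rw [hg, integral_sub_left_eq_self (fun t => ρ n t) volume x]
      exact hρ1 n
    rw [h2, h3, mul_one, abs_neg] at h1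
    exact h1
  -- Lipschitz bound along segments
  have hseg : ∀ x ∈ U, ∀ y ∈ U, ∀ᶠ n in atTop,
      |(H ⋆[LL, volume] ρ n) y - (H ⋆[LL, volume] ρ n) x| ≤ p (y - x) := by
    intro x hx y hy
    have hcomp : IsCompact (segment ℝ x y) := by
      rw [segment_eq_image']
      exact isCompact_Icc.image (by fun_prop)
    obtain ⟨δ, hδ, hδU⟩ := hcomp.exists_cthickening_subset_open hUo (hUc.segment_subset hx hy)
    filter_upwards [hr0.eventually_le_const hδ] with n hn
    have hball : ∀ t ∈ Icc (0 : ℝ) 1, Metric.closedBall (x + t • (y - x)) (φ n).rOut ⊆ U := by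
      intro t ht z hz
      apply hδU
      refine Metric.mem_cthickening_of_dist_le z (x + t • (y - x)) δ _ ?_ ?_
      · rw [segment_eq_image']
        exact ⟨t, ht, rfl⟩
      · exact (Metric.mem_closedBall.1 hz).trans hn
    have hd : ∀ t ∈ Icc (0 : ℝ) 1, ∃ a : ℝ, HasDerivWithinAt
        (fun t : ℝ => (H ⋆[LL, volume] ρ n) (x + t • (y - x))) a (Icc 0 1) t ∧ |a| ≤ p (y - x) := by
      intro t ht
      obtain ⟨L, hL, hLv⟩ := hder n _ (hball t ht)
      have h1 : HasDerivAt (fun t : ℝ => x + t • (y - x)) (y - x) t := by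
        have := ((hasDerivAt_id t).smul_const (y - x)).const_add x
        simpa using this
      have h3 : HasDerivAt (fun t : ℝ => (H ⋆[LL, volume] ρ n) (x + t • (y - x)))
          (L (y - x)) t := hL.comp_hasDerivAt_of_eq t h1 rfl
      exact ⟨L (y - x), h3.hasDerivWithinAt, hLv _⟩
    choose! f' hf' hb' using hd
    have h2 := norm_image_sub_le_of_norm_deriv_le_segment_01' (f := fun t : ℝ =>
      (H ⋆[LL, volume] ρ n) (x + t • (y - x))) (f' := f') (C := p (y - x)) hf'
      (fun t ht => by
        rw [Real.norm_eq_abs]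
        exact hb' t ⟨ht.1, ht.2.le⟩)
    simp only [one_smul, zero_smul, add_zero, add_sub_cancel, Real.norm_eq_abs] at h2
    exact h2
  -- almost everywhere convergence
  have hae : ∀ᵐ x ∂(volume : Measure (Rn m)),
      Tendsto (fun n => (H ⋆[LL, volume] ρ n) x) atTop (𝓝 (H x)) := by
    have h2 := ContDiffBump.ae_convolution_tendsto_right_of_locallyIntegrable
      (μ := (volume : Measure (Rn m))) (K := 2) (φ := φ) hr0
      (Eventually.of_forall fun n => by
        rw [hout, hin, mul_one_div, div_le_div_iff₀ (by positivity) (by positivity)]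
        nlinarith [(Nat.cast_nonneg n : (0:ℝ) ≤ n)]) hloc
    filter_upwards [h2] with x hx
    refine hx.congr fun n => ?_
    rw [conv_apply, ← convolution_flip, convolution_def]
    refine integral_congr_ae (Eventually.of_forall fun t => ?_)
    simp [mul_comm, hρ]
  set G : Set (Rn m) := {x | x ∈ U ∧ Tendsto (fun n => (H ⋆[LL, volume] ρ n) x) atTop (𝓝 (H x))}
    with hGdef
  have hGlip : ∀ x ∈ G, ∀ y ∈ G, H y - H x ≤ p (y - x) := by
    intro x hx y hy
    have h1 := (hy.2.sub hx.2)
    refine le_of_tendsto h1 ?_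
    filter_upwards [hseg x hx.1 y hy.1] with n hn
    exact (abs_le.1 hn).2
  have hGne : G.Nonempty := by
    have hd : Dense {x : Rn m | Tendsto (fun n => (H ⋆[LL, volume] ρ n) x) atTop (𝓝 (H x))} :=
      MeasureTheory.Measure.dense_of_ae hae
    obtain ⟨z, hz1, hz2⟩ := hd.inter_open_nonempty U hUo hne
    exact ⟨z, hz1, hz2⟩
  have : Nonempty G := hGne.to_subtype
  -- the extension
  have hbdd : ∀ x, BddBelow (range fun z : G => H z + p (x - z)) := by
    intro x
    refine ⟨-C, ?_⟩
    rintro _ ⟨z, rfl⟩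
    have h1 := (abs_le.1 (hC z)).1
    have h2 := apply_nonneg p (x - z)
    simp only
    linarith
  refine ⟨fun x => ⨅ z : G, (H z + p (x - z)), ?_, ?_⟩
  · have key : ∀ x y : Rn m, (⨅ z : G, (H z + p (x - z))) - (⨅ z : G, (H z + p (y - z))) ≤
        p (x - y) := by
      intro x y
      rw [sub_le_iff_le_add, add_comm, ← sub_le_iff_le_add]
      refine le_ciInf fun z => ?_
      rw [sub_le_iff_le_add]
      refine (ciInf_le (hbdd x) z).trans ?_
      have h1 : p (x - z) ≤ p (x - y) + p (y - z) := by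
        have := map_add_le_add p (x - y) (y - z)
        rwa [sub_add_sub_cancel] at this
      linarith
    intro x _ y _
    rw [abs_le]
    constructor
    · have h1 := key y x
      rw [map_sub_rev p y x] at h1
      linarith
    · exact key x y
  · rw [ae_restrict_iff' hUo.measurableSet]
    filter_upwards [hae] with x hx hxU
    have hxG : x ∈ G := ⟨hxU, hx⟩
    apply le_antisymm
    · refine (ciInf_le (hbdd x) ⟨x, hxG⟩).trans ?_
      simp
    · refine le_ciInf fun z => ?_
      have := hGlip z z.2 x hxG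
      linarith

end Pool.Agent.W571.LVF.Mol
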